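import Pool.Agent.Helper36.RK.GoalsG

/-! # RK, VARG: the averages do not depend on `z` -/

set_option autoImplicit false

open Complex Metric Set Filter Topology MeasureTheory Matrix
open scoped ContDiff ComplexConjugate ComplexOrder Manifold

namespace Pool.Agent.Helper24.RK

open Pool.Agent.Helper95.Lin Pool.Agent.Helper16.Abund Pool.Agent.Helper92.Orb Pool.Agent.Helper10.SP
  Pool.Agent.Helper95.RK Pool.Agent.Helper36.RK

/-- The segment stays in the large ball. -/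
lemma seg_mem {E : Type*} [NormedAddCommGroup E] [NormedSpace ℝ E] {c z z' : E} {ρ τ : ℝ}
    (hρ : ρ < 2) (hz : z ∈ closedBall c ρ) (hz' : z' ∈ closedBall c ρ)
    (hτ : τ ∈ Ioo (-(1 / 4) : ℝ) (1 + 1 / 4)) : z + τ • (z' - z) ∈ ball c 3 := by
  rw [mem_closedBall, dist_eq_norm] at hz hz'
  rw [mem_ball, dist_eq_norm]
  have he : ‖z' - z‖ < 4 := by
    calc ‖z' - z‖ = ‖(z' - c) - (z - c)‖ := by congr 1; abel
      _ ≤ ‖z' - c‖ + ‖z - c‖ := norm_sub_le _ _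
      _ < 4 := by linarith
  rcases le_total τ 0 with h0 | h0
  · calc ‖z + τ • (z' - z) - c‖ = ‖(z - c) + τ • (z' - z)‖ := by congr 1; abel
      _ ≤ ‖z - c‖ + ‖τ • (z' - z)‖ := norm_add_le _ _
      _ = ‖z - c‖ + (-τ) * ‖z' - z‖ := by rw [norm_smul, Real.norm_eq_abs, abs_of_nonpos h0]
      _ ≤ ρ + (1 / 4) * 4 := by
        have := hτ.1
        have h4 : (-τ) * ‖z' - z‖ ≤ (1 / 4) * 4 :=
          mul_le_mul (by linarith) he.le (norm_nonneg _) (by norm_num)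
        linarith
      _ < 3 := by linarith
  · rcases le_total τ 1 with h1 | h1
    · have e1 : z + τ • (z' - z) - c = (1 - τ) • (z - c) + τ • (z' - c) := by
        rw [sub_smul, one_smul, smul_sub, smul_sub, smul_sub]
        abel
      rw [e1]
      calc ‖(1 - τ) • (z - c) + τ • (z' - c)‖ ≤ ‖(1 - τ) • (z - c)‖ + ‖τ • (z' - c)‖ :=
            norm_add_le _ _
        _ = (1 - τ) * ‖z - c‖ + τ * ‖z' - c‖ := by
          rw [norm_smul, norm_smul, Real.norm_eq_abs, Real.norm_eq_abs, abs_of_nonneg h0,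
            abs_of_nonneg (by linarith : 0 ≤ 1 - τ)]
        _ ≤ (1 - τ) * ρ + τ * ρ := by
          have := mul_le_mul_of_nonneg_left hz (by linarith : 0 ≤ 1 - τ)
          have := mul_le_mul_of_nonneg_left hz' h0
          linarith
        _ < 3 := by linarith
    · calc ‖z + τ • (z' - z) - c‖ = ‖(z' - c) + (τ - 1) • (z' - z)‖ := by
            congr 1
            rw [sub_smul, one_smul]
            abel
        _ ≤ ‖z' - c‖ + ‖(τ - 1) • (z' - z)‖ := norm_add_le _ _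
        _ = ‖z' - c‖ + (τ - 1) * ‖z' - z‖ := by
          rw [norm_smul, Real.norm_eq_abs, abs_of_nonneg (by linarith)]
        _ ≤ ρ + (1 / 4) * 4 := by
          have := hτ.2
          have h4 : (τ - 1) * ‖z' - z‖ ≤ (1 / 4) * 4 :=
            mul_le_mul (by linarith) he.le (norm_nonneg _) (by norm_num)
          linarith
        _ < 3 := by linarith

/-- The segment stays in the ball (for `τ ∈ [0, 1]`). -/
lemma seg_mem' {E : Type*} [NormedAddCommGroup E] [NormedSpace ℝ E] {c z z' : E} {ρ τ : ℝ}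
    (hz : z ∈ closedBall c ρ) (hz' : z' ∈ closedBall c ρ)
    (hτ : τ ∈ Icc (0 : ℝ) 1) : z + τ • (z' - z) ∈ closedBall c ρ := by
  have h := (convex_closedBall c ρ).add_smul_sub_mem hz hz' hτ
  exact h

/-- Smoothness along a segment. -/
lemma comp_seg {E X : Type*} [NormedAddCommGroup E] [NormedSpace ℝ E] [NormedAddCommGroup X]
    [NormedSpace ℝ X] (F : E × X → ℝ) (z e : E) (S : Set E) (T : Set ℝ)
    (hF : ContDiffOn ℝ ∞ F (S ×ˢ univ)) (hT : ∀ τ ∈ T, z + τ • e ∈ S) :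
    ContDiffOn ℝ 1 (fun p : ℝ × X => F (z + p.1 • e, p.2)) (T ×ˢ univ) := by
  have hle : (1 : WithTop ℕ∞) ≤ ∞ := by exact_mod_cast le_top
  have hseg : ContDiff ℝ 1 (fun p : ℝ × X => (z + p.1 • e, p.2)) := by fun_prop
  exact (hF.of_le hle).comp hseg.contDiffOn (fun p hp => ⟨hT p.1 hp.1, mem_univ _⟩)

/-- Derivative along a segment. -/
lemma deriv_seg {E X : Type*} [NormedAddCommGroup E] [NormedSpace ℝ E] [NormedAddCommGroup X]
    [NormedSpace ℝ X] (F : E × X → ℝ) (z e : E) (S : Set E) (hS : IsOpen S)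
    (hF : ContDiffOn ℝ ∞ F (S ×ˢ univ)) (τ : ℝ) (hτ : z + τ • e ∈ S) (x : X) :
    deriv (fun τ' : ℝ => F (z + τ' • e, x)) τ = fderiv ℝ (fun y => F (y, x)) (z + τ • e) e := by
  have hd : DifferentiableAt ℝ (fun y => F (y, x)) (z + τ • e) := by
    have h1 : ContDiffOn ℝ ∞ (fun y : E => F (y, x)) S :=
      hF.comp (f := fun y : E => (y, x)) (by fun_prop) (fun y hy => ⟨hy, mem_univ _⟩)
    exact (h1.contDiffAt (hS.mem_nhds hτ)).differentiableAt (by simp)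
  have hl : HasDerivAt (fun τ' : ℝ => z + τ' • e) e τ := by
    have := ((hasDerivAt_id τ).smul_const e).const_add z
    simpa using this
  exact (hd.hasFDerivAt.comp_hasDerivAt τ hl).deriv

theorem varg (hSMG : S_SMG) (hCLG : S_CLG) (hSUBL : S_SUBL) (hSTK : S_STK) : S_VARG := by
  intro b k N c R P Φ Hf C H hAF hKah lam hPer hLim φ hφ i ρ hρ ε hε
  have hcf : Continuous (fun y => fderiv ℝ φ y) := hφ.1.continuous_fderiv (by norm_num)
  have hsf : HasCompactSupport (fun y => fderiv ℝ φ y) := hφ.2.fderiv (𝕜 := ℝ)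
  have hcn : Continuous (fun y => ‖fderiv ℝ φ y‖) := hcf.norm
  have hsn : HasCompactSupport (fun y => ‖fderiv ℝ φ y‖) := hsf.norm
  have hi1 : Integrable (fun y => ‖fderiv ℝ φ y‖ * ‖y‖) :=
    (hcn.mul continuous_norm).integrable_of_hasCompactSupport (hsn.mul_right)
  have hi2 : Integrable (fun y => ‖fderiv ℝ φ y‖) := hcn.integrable_of_hasCompactSupport hsn
  set A1 : ℝ := ∫ y, ‖fderiv ℝ φ y‖ * ‖y‖ with hA1
  set A2 : ℝ := ∫ y, ‖fderiv ℝ φ y‖ with hA2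
  have hA1n : 0 ≤ A1 := integral_nonneg fun y => by positivity
  have hA2n : 0 ≤ A2 := integral_nonneg fun y => by positivity
  obtain ⟨B, hB0, hB⟩ := hSUBL c R P Φ Hf C H hAF hKah lam hPer hLim i ρ hρ
    (ε / (16 * (A1 + 1))) (by positivity)
  refine ⟨16 * B * (A2 + 1) / ε + 1, by positivity, ?_⟩
  intro s hs z hz z' hz' j l
  have hs0 : 0 < s := lt_of_lt_of_le (by positivity) hs
  set e : Cn b := z' - z with he
  have hen : ‖e‖ ≤ 4 := by
    rw [mem_closedBall, dist_eq_norm] at hz hz'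
    calc ‖e‖ = ‖(z' - c i) - (z - c i)‖ := by rw [he]; congr 1; abel
      _ ≤ ‖z' - c i‖ + ‖z - c i‖ := norm_sub_le _ _
      _ ≤ 4 := by linarith
  have hmem3 : ∀ τ ∈ Ioo (-(1 / 4) : ℝ) (1 + 1 / 4), z + τ • e ∈ Bd c 3 := fun τ hτ =>
    mem_iUnion.2 ⟨i, seg_mem hρ hz hz' hτ⟩
  have hIcc : ∀ τ ∈ Icc (0 : ℝ) 1, τ ∈ Ioo (-(1 / 4) : ℝ) (1 + 1 / 4) := fun τ hτ =>
    ⟨by linarith [hτ.1], by linarith [hτ.2]⟩
  -- smoothness
  have hS1 := hSMG c R P Φ Hf C H hAF hKah lam hPer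
  have hBdo : IsOpen (Bd c 3) := isOpen_iUnion fun _ => isOpen_ball
  have hcdf : ContDiffOn ℝ 1 (fun p : ℝ × (Fin (2 * k) → ℝ) => fL H lam (z + p.1 • e) p.2 j l)
      (Ioo (-(1 / 4) : ℝ) (1 + 1 / 4) ×ˢ univ) :=
    comp_seg (fun p => fL H lam p.1 p.2 j l) z e (Bd c 3) _ (hS1 j l e).1 hmem3
  have hcdr : ∀ l', ContDiffOn ℝ 1 (fun p : ℝ × (Fin (2 * k) → ℝ) =>
      rL H lam (z + p.1 • e) p.2 e l') (Ioo (-(1 / 4) : ℝ) (1 + 1 / 4) ×ˢ univ) := fun l' =>
    comp_seg (fun p => rL H lam p.1 p.2 e l') z e (Bd c 3) _ (hS1 j l' e).2 hmem3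
  have hder : ∀ τ ∈ Icc (0 : ℝ) 1, ∀ x, deriv (fun τ' => fL H lam (z + τ' • e) x j l) τ =
      fderiv ℝ (fun y => rL H lam (z + τ • e) y e l) x (Pi.single j 1) -
        fderiv ℝ (fun y => rL H lam (z + τ • e) y e j) x (Pi.single l 1) := by
    intro τ hτ x
    have hm := hmem3 τ (hIcc τ hτ)
    rw [← hCLG c R P Φ Hf C H hAF hKah lam hPer (z + τ • e) hm x e j l]
    exact deriv_seg (fun p => fL H lam p.1 p.2 j l) z e (Bd c 3) hBdo (hS1 j l e).1 τ hm x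
  have hbd : ∀ τ ∈ Icc (0 : ℝ) 1, ∀ x,
      |rL H lam (z + τ • e) x e l| ≤ (ε / (16 * (A1 + 1)) * ‖e‖) * ‖x‖ + B * ‖e‖ ∧
      |rL H lam (z + τ • e) x e j| ≤ (ε / (16 * (A1 + 1)) * ‖e‖) * ‖x‖ + B * ‖e‖ := by
    intro τ hτ x
    have hm : z + τ • e ∈ closedBall (c i) ρ := seg_mem' hz hz' hτ
    have h1 := hB (z + τ • e) hm x e l
    have h2 := hB (z + τ • e) hm x e j
    constructor <;> nlinarith
  have key := hSTK j l (fun τ x => fL H lam (z + τ • e) x j l)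
    (fun τ x => rL H lam (z + τ • e) x e l) (fun τ x => rL H lam (z + τ • e) x e j) φ
    (ε / (16 * (A1 + 1)) * ‖e‖) (B * ‖e‖) s (1 / 4) hφ hs0 (by positivity) (by positivity)
    (by norm_num) hcdf (hcdr l) (hcdr j) hder hbd
  have e1 : z + (1 : ℝ) • e = z' := by rw [one_smul, he]; abel
  have e0 : z + (0 : ℝ) • e = z := by rw [zero_smul, add_zero]
  have hTN : |TN H lam φ z s j l - TN H lam φ z' s j l| ≤
      ∫ y, (|fderiv ℝ φ y (Pi.single j 1)| + |fderiv ℝ φ y (Pi.single l 1)|) *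
        (ε / (16 * (A1 + 1)) * ‖e‖ * ‖y‖ + B * ‖e‖ / s) := by
    rw [abs_sub_comm]
    unfold TN
    have := key
    simp only [e1, e0] at this
    exact this
  refine hTN.trans ?_
  have hsing : ∀ (j : Fin (2 * k)) (y : Fin (2 * k) → ℝ),
      |fderiv ℝ φ y (Pi.single j 1)| ≤ ‖fderiv ℝ φ y‖ := by
    intro j y
    have h1 := (fderiv ℝ φ y).le_opNorm (Pi.single j (1 : ℝ))
    have h2 : ‖(Pi.single j (1 : ℝ) : Fin (2 * k) → ℝ)‖ ≤ 1 := by
      rw [pi_norm_le_iff_of_nonneg zero_le_one]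
      intro a
      by_cases ha : a = j
      · subst ha; simp
      · simp [Pi.single_eq_of_ne ha]
    rw [Real.norm_eq_abs] at h1
    calc |fderiv ℝ φ y (Pi.single j 1)| ≤ ‖fderiv ℝ φ y‖ * ‖(Pi.single j (1 : ℝ) :
          Fin (2 * k) → ℝ)‖ := h1
      _ ≤ ‖fderiv ℝ φ y‖ * 1 := mul_le_mul_of_nonneg_left h2 (norm_nonneg _)
      _ = ‖fderiv ℝ φ y‖ := mul_one _
  set q1 : ℝ := ε / (16 * (A1 + 1)) with hq1
  have hq1n : 0 ≤ q1 := by positivity
  have hint : ∫ y, (|fderiv ℝ φ y (Pi.single j 1)| + |fderiv ℝ φ y (Pi.single l 1)|) *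
        (q1 * ‖e‖ * ‖y‖ + B * ‖e‖ / s) ≤
      ∫ y, (8 * q1 * (‖fderiv ℝ φ y‖ * ‖y‖) + 8 * B / s * ‖fderiv ℝ φ y‖) := by
    apply integral_mono_of_nonneg
    · exact Eventually.of_forall fun y => by positivity
    · exact (hi1.const_mul _).add (hi2.const_mul _)
    · refine Eventually.of_forall fun y => ?_
      have h1 := hsing j y
      have h2 := hsing l y
      have h3 : q1 * ‖e‖ * ‖y‖ + B * ‖e‖ / s ≤ q1 * 4 * ‖y‖ + B * 4 / s := by gcongr
      have h4 : 0 ≤ q1 * ‖e‖ * ‖y‖ + B * ‖e‖ / s := by positivity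
      calc (|fderiv ℝ φ y (Pi.single j 1)| + |fderiv ℝ φ y (Pi.single l 1)|) *
            (q1 * ‖e‖ * ‖y‖ + B * ‖e‖ / s)
          ≤ (‖fderiv ℝ φ y‖ + ‖fderiv ℝ φ y‖) * (q1 * 4 * ‖y‖ + B * 4 / s) :=
            mul_le_mul (add_le_add h1 h2) h3 h4 (by positivity)
        _ = 8 * q1 * (‖fderiv ℝ φ y‖ * ‖y‖) + 8 * B / s * ‖fderiv ℝ φ y‖ := by ring
  refine hint.trans ?_
  rw [integral_add (hi1.const_mul _) (hi2.const_mul _), integral_const_mul, integral_const_mul]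
  have f1 : 8 * q1 * A1 ≤ ε / 2 := by
    rw [hq1]
    rw [show 8 * (ε / (16 * (A1 + 1))) * A1 = ε / 2 * (A1 / (A1 + 1)) by
      field_simp; ring]
    have : A1 / (A1 + 1) ≤ 1 := by
      rw [div_le_one (by linarith)]; linarith
    calc ε / 2 * (A1 / (A1 + 1)) ≤ ε / 2 * 1 := by gcongr
      _ = ε / 2 := mul_one _
  have f2 : 8 * B / s * A2 ≤ ε / 2 := by
    rw [div_mul_eq_mul_div, div_le_iff₀ hs0]
    have g1 : 16 * B * (A2 + 1) / ε ≤ s := by linarith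
    rw [div_le_iff₀ hε] at g1
    have g2 : 0 ≤ B * A2 := by positivity
    nlinarith
  linarith

end Pool.Agent.Helper24.RK
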